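import Pool.Agent.Results.MP_e426f4_ag.ProductsOfConics
import Pool.Agent.Q319.WN.Def

/-!
# Brauer-Manin obstruction for ALL fibrations `yᵢ² - aᵢ zᵢ² = bᵢ t (f(t) + k)`, `k` near the multiples of almost every real number

Let `f` be any integral polynomial of degree `d ≥ 1` and let `aᵢ`, `bᵢ` be nonzero integers, `i < r`. A smooth proper model of
the variety `W_k : yᵢ² - aᵢ zᵢ² = bᵢ t (f(t) + k) ≠ 0`, `i < r`, is fibred over the line in products of `r` conics; if `d` is
even then the algebras `(aᵢ, t)` are unramified on it. Weak approximation of the points orthogonal to these algebras (`WB`,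
defined in `Pool.Agent.Results.MP_e426f4_ag.ProductsOfConics`) holds for ALL the `W_k` whose parameter `k` lies in a window of
logarithmic size around one of the multiples `n y`, `n ≤ N ^ θ`, of a real number `y`, for almost all real `y` of size
`N ^ (1 - θ)` (with few exceptional `n`), and around the numbers `α s_n`, `n` large, for almost every real number `α` and
every rapidly increasing sequence `s` (for example `s_n = 2 ^ n`).

From Mathlib: `volume`: the Lebesgue measure; `∀ᵐ α : ℝ`: for almost all real `α`; `∀ᶠ n in atTop`: for all large `n`. The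
bound for the number of exceptional `k` is from the starting files (`ProductsOfConics`), as well as the count of the elements
of arbitrary sets of integers in intervals at multiples of real numbers (`Pool.Agent.H438R2.DL`). `RareAtMultiples` is
defined in `Pool.Agent.Q319.WN.Def`.
-/

set_option autoImplicit false

namespace Pool.Agent.Results.MP_e426f4_ag.ConicFibrationsAtRealMultiples

open Finset Polynomial MeasureTheory Filter Pool.Agent.Q319.WN Pool.Agent.Results.MP_e426f4_ag.ProductsOfConics

/-- `T` contains the primes `≤ 2 deg f` and the primes dividing the leading coefficient of `f` or some `aᵢ bᵢ`. -/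
def ContainsBad {r : ℕ} (f : ℤ[X]) (a b : Fin r → ℤ) (T : Finset Nat.Primes) : Prop :=
  ∀ p : Nat.Primes, ((p : ℕ) ≤ 2 * f.natDegree ∨ ((p : ℕ) : ℤ) ∣ f.leadingCoeff * ∏ i, (a i * b i)) → p ∈ T

/-- Let `f` be an integral polynomial of degree at least `1` and let `aᵢ`, `bᵢ` be nonzero integers.
1. For all finite sets `T` of primes with the small and the bad primes and all `M` the exceptions `k` to weak approximation
   of level `M` at `T` (under the conditions given by the algebras `(aᵢ, t)`) for `W_k` are rare at the multiples of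
   almost all real numbers: for almost all real `y` of size `N ^ (1 - θ)` (the exceptional set has the measure
   `N ^ (1 - θ - κ)`) and all `n ≤ N ^ θ`, with at most `N ^ θ / log ^ U N` exceptions, there is no such `k` with
   `||k| - n y| ≤ log ^ A N`.
2. For all sequences of integers `s n ≥ exp (n ^ δ)` and almost every real number `α > 0`: for all finite `T` with the small
   and the bad primes and all `M`, `A`, for all large `n`, this weak approximation holds for ALL `W_k` with
   `||k| - α s_n| ≤ log ^ A (s_n)`. -/
theorem result (r : ℕ) (f : ℤ[X]) (hf : 1 ≤ f.natDegree) (a b : Fin r → ℤ) (ha : ∀ i, a i ≠ 0) (hb : ∀ i, b i ≠ 0) :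
    (∀ T : Finset Nat.Primes, ContainsBad f a b T → ∀ M : ℕ, RareAtMultiples (fun k => ¬ WB f a b T M k)) ∧
    ∀ (s : ℕ → ℕ) (δ : ℝ), 0 < δ → (∀ᶠ n : ℕ in atTop, Real.exp ((n : ℝ) ^ δ) ≤ s n) →
      ∀ᵐ α : ℝ, 0 < α → ∀ T : Finset Nat.Primes, ContainsBad f a b T → ∀ M A : ℕ, ∀ᶠ n : ℕ in atTop, ∀ k : ℤ,
        |(|(k : ℝ)|) - α * s n| ≤ Real.log (s n) ^ A → WB f a b T M k := by
  classical
  have hfew : ∀ (T : Finset Nat.Primes), ContainsBad f a b T → ∀ M : ℕ, Few (fun k => ¬ WB f a b T M k) := by
    intro T hT M
    refine few_of (fun U => ?_)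
    obtain ⟨X₀, h2⟩ := ProductsOfConics.result r f hf a b ha hb T hT M U
    refine ⟨X₀, fun X hX F hF => ?_⟩
    refine le_trans (le_of_eq ?_) (h2 X hX)
    congr 2
    ext x
    rw [hF x, mem_filter]
  refine ⟨fun T hT M => multiples (hfew T hT M), fun s δ hδ hs => ?_⟩
  have h3 := dilates_all (ι := {T : Finset Nat.Primes // ContainsBad f a b T} × ℕ)
    (P := fun i k => ¬ WB f a b i.1.1 i.2 k) (fun i => hfew i.1.1 i.1.2 i.2) s δ hδ hs
  filter_upwards [h3] with α hα hα0 T hT M A
  filter_upwards [hα hα0 (⟨T, hT⟩, M) A] with n hn k hk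
  exact not_not.1 (hn k hk)

end Pool.Agent.Results.MP_e426f4_ag.ConicFibrationsAtRealMultiples
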