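import Pool.Agent.Results.MP_e426f4_ag.RandomHypersurfacesInProducts
import Pool.Agent.Q319.WN.Form

/-!
# The Hasse principle for ALL rationally connected hypersurfaces in products of projective spaces near the multiples and the
dilates of almost every real one

Let `k ≥ 1`, `n i ≥ 1`, `d i ≥ 1` (`i < k`) with `d i < n i + 1` for at least one `i`, i.e. the smooth hypersurfaces of
multidegree `(d 0, d 1, …)` in `ℙ^(n 0) × ℙ^(n 1) × …` are rationally connected. We consider integral multihomogeneous forms
whose coefficients are close to those of the multiples `l F` or of the dilates `v_l F` of a real form `F`.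

1. For all real `F` with coefficients at most `Y` outside a set of measure at most `ε Y ^ M` (`M` the number of
   coefficients) and 100% of the `l ≤ R` the Hasse principle holds for ALL hypersurfaces given by integral forms whose
   coefficients are within `w` of those of `l F` (`Y` large in terms of `ε` and `w`; every `R`).
2. For every sequence `v_l → ∞` and almost every real `F` it holds for ALL the hypersurfaces within `w` of `v_l F`, for
   100% of the `l < K_j`, for a sequence `K_j → ∞` which does not depend on `F`.
3. If `v_l` increases fast enough then for almost every real `F` and all large `l` it holds for ALL the hypersurfaces given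
   by integral forms whose coefficients are within `l` of those of `v_l F`.

From Mathlib: `volume`: the Lebesgue measure; `MvPolynomial`. That the Hasse principle holds for 100% of the hypersurfaces
is from the starting file `RandomHypersurfacesInProducts` (with the definitions of `LocallySoluble`, `HasPoint`). `poly` is
defined in `Pool.Agent.Q319.WN.Form`; `MultiplesVec`, `DilatesVec`, `FastDilatesVec` in `Pool.Agent.Q319.WN.Vec`.
-/

set_option autoImplicit false

namespace Pool.Agent.Results.MP_e426f4_ag.HypersurfacesNearRealForms

open Filter Topology Finset Pool.Agent.Q319.WN Pool.Agent.Results.MP_e426f4_ag.RandomHypersurfacesInProducts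

/-- The monomials of multidegree `d` in the `k` blocks of `n i + 1` variables. -/
def multi {k : ℕ} (n d : Fin k → ℕ) : Finset ((Σ i : Fin k, Fin (n i + 1)) →₀ ℕ) :=
  (Finset.finsuppAntidiag Finset.univ (∑ i, d i)).filter fun s => ∀ i : Fin k, ∑ j : Fin (n i + 1), s ⟨i, j⟩ = d i

/-- The hypersurface `f = 0` is a counterexample to the Hasse principle. -/
def Counterexample {k : ℕ} {n : Fin k → ℕ} (f : MvPolynomial (Σ i : Fin k, Fin (n i + 1)) ℤ) : Prop :=
  LocallySoluble f ∧ ¬ HasPoint ℚ f

lemma mem_multi {k : ℕ} {n d : Fin k → ℕ} {s : (Σ i : Fin k, Fin (n i + 1)) →₀ ℕ} :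
    s ∈ multi n d ↔ ∀ i : Fin k, ∑ j : Fin (n i + 1), s ⟨i, j⟩ = d i := by
  unfold multi
  rw [mem_filter, Finset.mem_finsuppAntidiag]
  constructor
  · exact fun h => h.2
  · intro h
    refine ⟨⟨?_, Finset.subset_univ _⟩, h⟩
    rw [Fintype.sum_sigma]
    exact Finset.sum_congr rfl fun i _ => h i

lemma counter_null {k : ℕ} (n d : Fin k → ℕ) (hk : 0 < k) (hn : ∀ i, 1 ≤ n i) (hd : ∀ i, 1 ≤ d i)
    (hrc : ∃ i, d i < n i + 1) : NullBox (fun x : ↥(multi n d) → ℤ => Counterexample (poly (multi n d) x)) := by
  have h := RandomHypersurfacesInProducts.result k n d hk hn hd hrc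
  refine null_of_ratio (A := fun x => LocallySoluble (poly (multi n d) x))
    (B := fun x => HasPoint ℚ (poly (multi n d) x)) (h.congr fun H => ?_)
  have h1 := ncard_poly (multi n d) H (fun f => LocallySoluble f)
  have h2 := ncard_poly (multi n d) H (fun f => LocallySoluble f ∧ HasPoint ℚ f)
  rw [← h1, ← h2]
  have e0 : ∀ f : MvPolynomial (Σ i : Fin k, Fin (n i + 1)) ℤ, f ∈ Forms n d H ↔
      (f.support ⊆ multi n d ∧ ∀ m, |f.coeff m| ≤ (H : ℤ)) := by
    intro f
    unfold Forms
    rw [Set.mem_ofPred_eq]
    refine and_congr_left fun _ => ?_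
    constructor
    · intro h s hs
      exact mem_multi.2 (h s hs)
    · intro h s hs
      exact mem_multi.1 (h hs)
  have e1 : {f | f ∈ Forms n d H ∧ LocallySoluble f ∧ HasPoint ℚ f} =
      {f : MvPolynomial (Σ i : Fin k, Fin (n i + 1)) ℤ | (f.support ⊆ multi n d ∧ ∀ m, |f.coeff m| ≤ (H : ℤ)) ∧
        LocallySoluble f ∧ HasPoint ℚ f} := by
    ext f
    simp only [Set.mem_ofPred_eq, e0]
  have e2 : {f | f ∈ Forms n d H ∧ LocallySoluble f} =
      {f : MvPolynomial (Σ i : Fin k, Fin (n i + 1)) ℤ | (f.support ⊆ multi n d ∧ ∀ m, |f.coeff m| ≤ (H : ℤ)) ∧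
        LocallySoluble f} := by
    ext f
    simp only [Set.mem_ofPred_eq, e0]
  rw [e1, e2]

/-- Let `k ≥ 1`, `n i ≥ 1`, `d i ≥ 1`, `d i < n i + 1` for at least one `i`. For integral forms of multidegree `d` in the
blocks of `n i + 1` variables the property to be a counterexample to the Hasse principle is
1. rare at the multiples of almost every real form `F`,
2. rare at the dilates `v l F`, for every sequence `v l → ∞` and almost every `F`,
3. absent within the distance `l` of `v l F` for all large `l`, for every fast sequence `v l` and almost every `F`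
(see `MultiplesVec`, `DilatesVec` and `FastDilatesVec` for the precise statements). -/
theorem result (k : ℕ) (n d : Fin k → ℕ) (hk : 0 < k) (hn : ∀ i, 1 ≤ n i) (hd : ∀ i, 1 ≤ d i)
    (hrc : ∃ i, d i < n i + 1) :
    MultiplesVec (fun x : ↥(multi n d) → ℤ => Counterexample (poly (multi n d) x)) ∧
      DilatesVec (fun _ (x : ↥(multi n d) → ℤ) => Counterexample (poly (multi n d) x)) ∧
      FastDilatesVec (fun _ (x : ↥(multi n d) → ℤ) => Counterexample (poly (multi n d) x)) := by
  have h := null_all (P := fun _ (x : ↥(multi n d) → ℤ) => Counterexample (poly (multi n d) x))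
    fun _ => counter_null n d hk hn hd hrc
  exact ⟨h.1 0, h.2⟩

end Pool.Agent.Results.MP_e426f4_ag.HypersurfacesNearRealForms
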