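import Pool.Agent.Q59.SM.Count
import Pool.Agent.Q59.SW.Field

/-!
# The Hasse principle for almost all rationally connected hypersurfaces in products of projective
# spaces, over all the number fields with places of degree one above the small primes

Let `k ≥ 2`, `n i ≥ 1`, `d i ≥ 1` (`i < k`) with `d i < n i + 1` for at least one `i`, i.e. the smooth
hypersurfaces of multidegree `(d 0, d 1, …)` in `ℙ^(n 0) × ℙ^(n 1) × …` are rationally connected. For
every `ε > 0` there is `w` such that all but a proportion `ε` of the integral forms `f` of this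
multidegree satisfy the Hasse principle over all the number fields `L`, of any degree, that have a real
place and above every prime `p ≤ w` a place of degree one. The completions of `L` above the primes
`p > w` do not matter. The conic bundle surfaces of bidegree `(2, d)` in `ℙ² × ℙ¹`, for which the Hasse
principle can fail, are included.
-/

set_option autoImplicit false

namespace Pool.Agent.Results.MP_e426f4_ag.ProductsOverSplitFields

open Filter Topology

/-- The forms of multidegree `d` in `k` blocks of variables, the block `i` having `n i + 1`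
variables, whose coefficients are integers of absolute value at most `H`. -/
def Forms {k : ℕ} (n d : Fin k → ℕ) (H : ℕ) :
    Set (MvPolynomial (Σ i : Fin k, Fin (n i + 1)) ℤ) :=
  {f | (∀ s ∈ f.support, ∀ i : Fin k, ∑ j : Fin (n i + 1), s ⟨i, j⟩ = d i) ∧
    ∀ s, |f.coeff s| ≤ (H : ℤ)}

/-- The hypersurface `f = 0` in `ℙ^(n 0) × ℙ^(n 1) × …` has a point over the field `K`: there is a
zero of `f` over `K` all of whose blocks are different from zero. -/
def HasPoint {k : ℕ} {n : Fin k → ℕ} (K : Type) [Field K]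
    (f : MvPolynomial (Σ i : Fin k, Fin (n i + 1)) ℤ) : Prop :=
  ∃ x : (Σ i : Fin k, Fin (n i + 1)) → K,
    (∀ i : Fin k, ∃ j : Fin (n i + 1), x ⟨i, j⟩ ≠ 0) ∧ MvPolynomial.aeval x f = 0

/-- The field `M`, with the embedding `σ` of the number field `L`, is a completion of `L` at a place
above the prime `p`: a finite extension of `ℚ_p` generated by the image of `L`. -/
structure IsCompletion (p : ℕ) [Fact p.Prime] (L M : Type) [Field L] [Field M] [Algebra ℚ_[p] M]
    (σ : L →+* M) : Prop where
  finite : FiniteDimensional ℚ_[p] M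
  top : Algebra.adjoin ℚ_[p] (Set.range σ) = ⊤

/-- `f = 0` has points over all the completions of the number field `L` at the places above the primes
`p ≤ w` and at the real places. -/
def SolubleUpTo (w : ℕ) {k : ℕ} {n : Fin k → ℕ} (f : MvPolynomial (Σ i : Fin k, Fin (n i + 1)) ℤ)
    (L : Type) [Field L] : Prop :=
  (∀ (p : ℕ) [Fact p.Prime], p ≤ w → ∀ (M : Type) [Field M] [Algebra ℚ_[p] M] (σ : L →+* M),
    IsCompletion p L M σ → HasPoint M f) ∧
  ((L →+* ℝ) → HasPoint ℝ f)

/-- The number field `L` has a place of degree one above every prime `p ≤ w`, that is, an embedding in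
`ℚ_p`, and a real place (which is not needed if one of the degrees `d i` is odd). -/
def SplitUpTo (w : ℕ) {k : ℕ} (d : Fin k → ℕ) (L : Type) [Field L] : Prop :=
  (∀ (p : ℕ) [Fact p.Prime], p ≤ w → Nonempty (L →+* ℚ_[p])) ∧
  ((∃ i, Odd (d i)) ∨ Nonempty (L →+* ℝ))

/-- For all the number fields `L` with a real place and with a place of degree one above every prime
`p ≤ w`: if `f = 0` has points over all the completions of `L` at the places above the primes `p ≤ w`
and at the real places, then it has a point over `ℚ` (hence over `L`). -/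
def HasseOverSplit (w : ℕ) {k : ℕ} {n : Fin k → ℕ} (d : Fin k → ℕ)
    (f : MvPolynomial (Σ i : Fin k, Fin (n i + 1)) ℤ) : Prop :=
  ∀ (L : Type) [Field L] [NumberField L], SplitUpTo w d L → SolubleUpTo w f L → HasPoint ℚ f

/-- the case of a fixed `w` -/
lemma main {k : ℕ} (n d : Fin k → ℕ) (hk : 2 ≤ k) (hn : ∀ i, 1 ≤ n i) (hd : ∀ i, 1 ≤ d i)
    (hrc : ∃ i, d i < n i + 1) (ε : ℝ) (hε : 0 < ε) :
    ∃ w : ℕ, ∀ᶠ H : ℕ in atTop, (1 - ε) * ((Forms n d H).ncard : ℝ) ≤
      (({f | f ∈ Forms n d H ∧ HasseOverSplit w d f} : Set _).ncard : ℝ) := by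
  obtain ⟨w, hw⟩ := Pool.Agent.Q59.SM.hp_w n d hk hn hd hrc ε hε
  refine ⟨w, ?_⟩
  filter_upwards [hw] with H hH
  refine le_trans hH (Nat.cast_le.2 (Set.ncard_le_ncard ?_
    ((Pool.Agent.Q59.SM.all_finite n d H).subset fun f hf => hf.1)))
  rintro f ⟨hf, h⟩
  refine ⟨hf, fun L _ _ hL1 hL2 => h ⟨?_, fun p _ hp => ?_⟩⟩
  · rcases hL1.2 with ⟨i, hi⟩ | h3
    · exact Pool.Agent.Q59.SM.real_odd i (hn i) hi f hf.1
    · exact hL2.2 h3.some
  · obtain ⟨σ⟩ := hL1.1 p hp
    exact hL2.1 p hp ℚ_[p] σ ⟨inferInstance, Subsingleton.elim _ _⟩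

lemma hasse_mono {w w' k : ℕ} {n d : Fin k → ℕ} {f : MvPolynomial (Σ i : Fin k, Fin (n i + 1)) ℤ}
    (h : w ≤ w') (hf : HasseOverSplit w d f) : HasseOverSplit w' d f :=
  fun L _ _ h1 h2 => hf L ⟨fun p _ hp => h1.1 p (hp.trans h), h1.2⟩
    ⟨fun p _ hp => h2.1 p (hp.trans h), h2.2⟩

/-- **The Hasse principle for almost all rationally connected hypersurfaces in products of projective
spaces over all the number fields with places of degree one above the small primes.** Let `k ≥ 2`,
`n i ≥ 1`, `d i ≥ 1`, `d i < n i + 1` for some `i`. (1) For every `ε > 0` there is `w` such that for all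
but a proportion `ε` of the integral forms `f` of multidegree `d`: for all the number fields `L` with a
real place and with a place of degree one above every prime `p ≤ w`: if `f = 0` has points over all the
completions of `L` at the places above the primes `p ≤ w` and at the real places, then it has a point
over `ℚ`. (2) For all functions `W` which tend to infinity, this holds for `w = W H` for 100% of the
forms with coefficients bounded by `H`, `H → ∞`. (3) For all `w` there are such number fields `L` of
every degree. -/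
theorem result {k : ℕ} (n d : Fin k → ℕ) (hk : 2 ≤ k) (hn : ∀ i, 1 ≤ n i) (hd : ∀ i, 1 ≤ d i)
    (hrc : ∃ i, d i < n i + 1) :
    (∀ ε : ℝ, 0 < ε → ∃ w : ℕ, ∀ᶠ H : ℕ in atTop, (1 - ε) * ((Forms n d H).ncard : ℝ) ≤
      (({f | f ∈ Forms n d H ∧ HasseOverSplit w d f} : Set _).ncard : ℝ)) ∧
    (∀ W : ℕ → ℕ, Tendsto W atTop atTop → Tendsto (fun H : ℕ =>
      (({f | f ∈ Forms n d H ∧ HasseOverSplit (W H) d f} : Set _).ncard : ℝ) /
      ((Forms n d H).ncard : ℝ)) atTop (𝓝 1)) ∧
    (∀ w m : ℕ, 1 ≤ m → ∃ (L : Type) (_ : Field L) (_ : NumberField L),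
      Module.finrank ℚ L = m ∧ SplitUpTo w d L) := by
  refine ⟨main n d hk hn hd hrc, fun W hW => ?_, fun w m hm => ?_⟩
  · rw [Metric.tendsto_nhds]
    intro ε hε
    obtain ⟨w, hw⟩ := main n d hk hn hd hrc (ε / 2) (by positivity)
    filter_upwards [hw, hW.eventually_ge_atTop w] with H hH hWH
    have hfin : (Forms n d H).Finite := Pool.Agent.Q59.SM.all_finite n d H
    have hpos : 0 < ((Forms n d H).ncard : ℝ) :=
      Nat.cast_pos.2 (Set.ncard_pos hfin |>.2 ⟨0, Pool.Agent.Q59.SM.zero_mem n d H⟩)
    have h1 : (({f | f ∈ Forms n d H ∧ HasseOverSplit w d f} : Set _).ncard : ℝ) ≤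
        (({f | f ∈ Forms n d H ∧ HasseOverSplit (W H) d f} : Set _).ncard : ℝ) :=
      Nat.cast_le.2 (Set.ncard_le_ncard (fun f hf => ⟨hf.1, hasse_mono hWH hf.2⟩)
        (hfin.subset fun f hf => hf.1))
    have h2 : (({f | f ∈ Forms n d H ∧ HasseOverSplit (W H) d f} : Set _).ncard : ℝ) ≤
        ((Forms n d H).ncard : ℝ) :=
      Nat.cast_le.2 (Set.ncard_le_ncard (fun f hf => hf.1) hfin)
    have h3 := hH.trans h1
    rw [← le_div_iff₀ hpos] at h3
    have h4 := div_le_one_of_le₀ h2 hpos.le
    rw [Real.dist_eq, abs_lt]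
    constructor <;> linarith
  · obtain ⟨L, _, _, h1, h2, h3⟩ := Pool.Agent.Q59.SW.exists_field w m hm
    exact ⟨L, inferInstance, inferInstance, h1, h2, Or.inr h3⟩

end Pool.Agent.Results.MP_e426f4_ag.ProductsOverSplitFields
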