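import Pool.Agent.Q59.ZC.Count
import Pool.Agent.Q59.ZC.Local

/-!
# The Hasse principle for 100% of the intersections of two quadrics over all number fields of odd
# degree

Let `n ≥ 4`. For `100%` of the pairs of integral quadratic forms in `n + 1` variables the smooth
intersection `q 0 = q 1 = 0` of two quadrics in `ℙⁿ` has the following property: if there is a number
field `L` of odd degree such that it has points over all the completions of `L`, then it has a rational
point. So for `100%` of the pairs the Hasse principle holds over all number fields of odd degree at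
once, and the answer does not depend on the field. For `n = 4` these are the del Pezzo surfaces of
degree four.
-/

set_option autoImplicit false

namespace Pool.Agent.Results.MP_e426f4_ag.QuadricsOverAllFields

open Filter Topology

/-- The pairs of quadratic forms in `n + 1` variables whose coefficients are integers of absolute
value at most `H`. -/
def Pairs (n H : ℕ) : Set (Fin 2 → MvPolynomial (Fin (n + 1)) ℤ) :=
  {q | ∀ j, (q j).IsHomogeneous 2 ∧ ∀ m, |(q j).coeff m| ≤ (H : ℤ)}

/-- The quadratic forms `q 0, q 1` define a smooth complete intersection in `ℙⁿ`: at every common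
zero over a field of characteristic zero the Jacobian matrix has rank `2`, that is, no nontrivial
linear combination of the gradients of the two forms vanishes there. -/
def Smooth {n : ℕ} (q : Fin 2 → MvPolynomial (Fin (n + 1)) ℤ) : Prop :=
  ∀ (K : Type) [Field K] [CharZero K] (x : Fin (n + 1) → K) (l : Fin 2 → K), x ≠ 0 → l ≠ 0 →
    (∀ j, MvPolynomial.aeval x (q j) = 0) →
    ∃ i, ∑ j, l j * MvPolynomial.aeval x (MvPolynomial.pderiv i (q j)) ≠ 0

/-- The intersection `q 0 = q 1 = 0` in `ℙⁿ` has a point over the field `L`. -/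
def HasPoint {n : ℕ} (q : Fin 2 → MvPolynomial (Fin (n + 1)) ℤ) (L : Type) [Field L] : Prop :=
  ∃ x : Fin (n + 1) → L, x ≠ 0 ∧ ∀ j, MvPolynomial.aeval x (q j) = 0

/-- The intersection `q 0 = q 1 = 0` has points over all the completions of the number field `L`. The
completions at the finite places are the fields `M = ℚ_p(σ(L))` for the embeddings `σ` of `L` into
finite extensions of the fields `ℚ_p`; the real ones are given by the embeddings of `L` in `ℝ`, and
over the complex numbers there are always points. -/
def LocallySoluble {n : ℕ} (q : Fin 2 → MvPolynomial (Fin (n + 1)) ℤ) (L : Type)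
    [Field L] : Prop :=
  (∀ (p : ℕ) [Fact p.Prime] (M : Type) [Field M] [Algebra ℚ_[p] M] [FiniteDimensional ℚ_[p] M]
    (σ : L →+* M), Algebra.adjoin ℚ_[p] (Set.range σ) = ⊤ → HasPoint q M) ∧
  ((L →+* ℝ) → HasPoint q ℝ)

/-- The intersection has points over all the completions of some number field of odd degree. -/
def SomewhereLocallySoluble {n : ℕ} (q : Fin 2 → MvPolynomial (Fin (n + 1)) ℤ) : Prop :=
  ∃ (L : Type) (_ : Field L) (_ : NumberField L), Odd (Module.finrank ℚ L) ∧ LocallySoluble q L

theorem point_of {n : ℕ} {q : Fin 2 → MvPolynomial (Fin (n + 1)) ℤ} {K : Type} [Field K]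
    (h : HasPoint q K) (M : Type) [Field M] [Algebra K M] : HasPoint q M := by
  obtain ⟨x, hx, h0⟩ := h
  refine ⟨fun i => algebraMap K M (x i), ?_, fun j => ?_⟩
  · intro h
    apply hx
    funext i
    have := congrFun h i
    exact (algebraMap K M).injective (by simpa using this)
  · have := MvPolynomial.aeval_algebraMap_apply M x (q j)
    rw [h0 j, map_zero] at this
    exact this

/-- an intersection of two quadrics with points over the completions of a number field of odd degree
has points over all the completions of `ℚ` -/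
theorem els_iff {n : ℕ} {q : Fin 2 → MvPolynomial (Fin (n + 1)) ℤ}
    (hq : ∀ j, (q j).IsHomogeneous 2) :
    SomewhereLocallySoluble q ↔ Pool.Agent.Y716.C.ElsS q := by
  constructor
  · rintro ⟨L, _, _, h3, hL⟩
    refine ⟨?_, fun p hp => ?_⟩
    · exact hL.2 (Pool.Agent.Q59.ZC.exists_real L h3).some
    · obtain ⟨M, _, _, _, σ, h1, h2⟩ := Pool.Agent.Q59.ZC.exists_completion p (l := 2) L
        (fun h => by
          rw [← even_iff_two_dvd] at h
          exact (Nat.not_even_iff_odd.2 h3) h)
      obtain ⟨x, hx0, hx⟩ := hL.1 p M σ h1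
      exact Pool.Agent.Y604.Z1.common_zero_of_odd (Fin (n + 1)) ℚ_[p] M
        (Nat.not_even_iff_odd.1 fun h => h2 (even_iff_two_dvd.1 h)) q hq x hx0 hx
  · rintro ⟨h1, h2⟩
    refine ⟨ℚ, inferInstance, inferInstance, by rw [Module.finrank_self]; exact odd_one, ?_, ?_⟩
    · intro p _ M _ _ _ σ _
      exact point_of (h2 p) M
    · intro _
      exact h1

/-- **The Hasse principle over all number fields of odd degree for 100% of the intersections of two
quadrics.** (1) A positive proportion of the pairs of quadratic forms in `n + 1 ≥ 5` variables is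
smooth and has points over all the completions of some number field of odd degree. (2) 100% of these
have rational points. (3) So for 100% of all the pairs the Hasse principle holds over all number
fields of odd degree. -/
theorem result (n : ℕ) (hn : 4 ≤ n) :
    (∃ c : ℝ, 0 < c ∧ ∀ᶠ H : ℕ in atTop, c * ((Pairs n H).ncard : ℝ) ≤
      (({q | q ∈ Pairs n H ∧ Smooth q ∧ SomewhereLocallySoluble q} : Set _).ncard : ℝ)) ∧
    Tendsto (fun H : ℕ =>
      (({q | q ∈ Pairs n H ∧ Smooth q ∧ HasPoint q ℚ} : Set _).ncard : ℝ) /
      (({q | q ∈ Pairs n H ∧ Smooth q ∧ SomewhereLocallySoluble q} : Set _).ncard : ℝ))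
      atTop (𝓝 1) ∧
    Tendsto (fun H : ℕ =>
      (({q | q ∈ Pairs n H ∧ Smooth q ∧ ∀ (L : Type) [Field L] [NumberField L],
        Odd (Module.finrank ℚ L) → LocallySoluble q L → HasPoint q L} : Set _).ncard : ℝ) /
      ((Pairs n H).ncard : ℝ)) atTop (𝓝 1) := by
  obtain ⟨h1, h2, h3⟩ := Pool.Agent.Q59.ZC.Count.proportions (Fin (n + 1)) (s := 2) (by norm_num)
    (by rw [Fintype.card_fin]; omega) (fun _ => 0) (by rw [Fintype.card_fin]; simp; omega)
    (fun q => SomewhereLocallySoluble q) (fun q hq => els_iff hq)
  refine ⟨h1, h2, ?_⟩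
  refine tendsto_of_tendsto_of_tendsto_of_le_of_le h3 tendsto_const_nhds (fun H => ?_)
    (fun H => ?_)
  · refine div_le_div_of_nonneg_right (Nat.cast_le.2 (Set.ncard_le_ncard ?_
      ((Pool.Agent.Q59.ZC.Count.all_finite (Fin (n + 1)) (fun _ : Fin 2 => 0) H).subset
        fun f hf => hf.1))) (Nat.cast_nonneg _)
    rintro q ⟨hq, hs, h⟩
    refine ⟨hq, hs, fun L _ _ hL1 hL2 => ?_⟩
    have hQ : HasPoint q ℚ := h ⟨L, inferInstance, inferInstance, hL1, hL2⟩
    exact point_of hQ L
  · exact div_le_one_of_le₀ (Nat.cast_le.2 (Set.ncard_le_ncard (fun f hf => hf.1)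
      (Pool.Agent.Q59.ZC.Count.all_finite (Fin (n + 1)) (fun _ : Fin 2 => 0) H)))
      (Nat.cast_nonneg _)

end Pool.Agent.Results.MP_e426f4_ag.QuadricsOverAllFields
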